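import Pool.Agent.Lib.MP_72b724_gt.Interfaces

/-!
# MP_72b724_gt, module RVOL: the Riemannian volume is locally finite and nearly Euclidean
-/

open scoped Manifold ContDiff ENNReal NNReal Topology Nat Pointwise
open MeasureTheory Set Filter Bundle Manifold Pool.Agent.Lib.MP_89fcdb_gt

namespace Pool.Agent.Lib.MP_72b724_gt.H74

noncomputable section

section Matrices

variable {n : ℕ}

/-- quadratic form -/
def qf (A : Matrix (Fin n) (Fin n) ℝ) (u : EuclideanSpace ℝ (Fin n)) : ℝ :=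
  ∑ i, ∑ j, u i * u j * A i j

theorem qf_eq (A : Matrix (Fin n) (Fin n) ℝ) (u : EuclideanSpace ℝ (Fin n)) :
    qf A u = u.ofLp ⬝ᵥ (A.mulVec u.ofLp) := by
  unfold qf
  simp only [dotProduct, Matrix.mulVec, Finset.mul_sum]
  refine Finset.sum_congr rfl fun i _ => Finset.sum_congr rfl fun j _ => ?_
  ring

theorem qf_smul (A : Matrix (Fin n) (Fin n) ℝ) (c : ℝ) (u : EuclideanSpace ℝ (Fin n)) :
    qf A (c • u) = c ^ 2 * qf A u := by
  unfold qf
  rw [Finset.mul_sum]
  refine Finset.sum_congr rfl fun i _ => ?_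
  rw [Finset.mul_sum]
  refine Finset.sum_congr rfl fun j _ => ?_
  simp only [PiLp.smul_apply, smul_eq_mul]
  ring

theorem exists_T {A : Matrix (Fin n) (Fin n) ℝ} (hA : A.PosDef) :
    ∃ T : EuclideanSpace ℝ (Fin n) ≃L[ℝ] EuclideanSpace ℝ (Fin n),
      (∀ u, qf A (T u) = ‖u‖ ^ 2) ∧
      √(A.det) * |LinearMap.det (T : EuclideanSpace ℝ (Fin n) →ₗ[ℝ] EuclideanSpace ℝ (Fin n))| = 1 := by
  obtain ⟨S, hS1, hS2, hS3⟩ : ∃ S : Matrix (Fin n) (Fin n) ℝ, S.transpose = S ∧ S * S = A ∧ IsUnit S.det := by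
    open scoped MatrixOrder in
    have h0 : 0 ≤ A := Matrix.nonneg_iff_posSemidef.2 hA.posSemidef
    refine ⟨CFC.sqrt A, ?_, CFC.sqrt_mul_sqrt_self A h0, ?_⟩
    · have : 0 ≤ CFC.sqrt A := CFC.sqrt_nonneg A
      have h2 := (Matrix.nonneg_iff_posSemidef.1 this).1
      have h3 : (CFC.sqrt A).conjTranspose = CFC.sqrt A := h2
      rwa [Matrix.conjTranspose_eq_transpose_of_trivial] at h3
    · have h1 : (CFC.sqrt A * CFC.sqrt A).det = A.det := by rw [CFC.sqrt_mul_sqrt_self A h0]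
      rw [Matrix.det_mul] at h1
      have h2 := hA.det_pos
      rw [isUnit_iff_ne_zero]
      intro h
      rw [h] at h1
      simp at h1
      linarith
  have hu : S * S⁻¹ = 1 := Matrix.mul_nonsing_inv S hS3
  have hu' : S⁻¹ * S = 1 := Matrix.nonsing_inv_mul S hS3
  have hL : ∀ P Q : Matrix (Fin n) (Fin n) ℝ, P * Q = 1 → ∀ u : EuclideanSpace ℝ (Fin n),
      Matrix.toEuclideanLin P (Matrix.toEuclideanLin Q u) = u := by
    intro P Q h u
    ext i
    simp only [Matrix.ofLp_toLpLin, Matrix.toLin'_apply, Matrix.mulVec_mulVec, h, Matrix.one_mulVec]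
  let T0 : EuclideanSpace ℝ (Fin n) ≃ₗ[ℝ] EuclideanSpace ℝ (Fin n) :=
    LinearEquiv.ofLinearMap (Matrix.toEuclideanLin S⁻¹) (Matrix.toEuclideanLin S)
      (LinearMap.ext fun u => hL _ _ hu' u) (LinearMap.ext fun u => hL _ _ hu u)
  refine ⟨T0.toContinuousLinearEquiv, ?_, ?_⟩
  · intro u
    have h1 : (T0.toContinuousLinearEquiv u).ofLp = S⁻¹.mulVec u.ofLp := rfl
    rw [qf_eq, h1, Matrix.mulVec_mulVec, ← hS2, Matrix.mul_assoc, hu, Matrix.mul_one,
      EuclideanSpace.real_norm_sq_eq, Matrix.dotProduct_mulVec, ← Matrix.mulVec_transpose, hS1,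
      Matrix.mulVec_mulVec, hu, Matrix.one_mulVec]
    simp [dotProduct, sq]
  · have h1 : LinearMap.det ((T0.toContinuousLinearEquiv : EuclideanSpace ℝ (Fin n) ≃L[ℝ] EuclideanSpace ℝ (Fin n)) :
        EuclideanSpace ℝ (Fin n) →ₗ[ℝ] EuclideanSpace ℝ (Fin n)) = (S⁻¹).det := by
      have : ((T0.toContinuousLinearEquiv : EuclideanSpace ℝ (Fin n) ≃L[ℝ] EuclideanSpace ℝ (Fin n)) :
        EuclideanSpace ℝ (Fin n) →ₗ[ℝ] EuclideanSpace ℝ (Fin n)) = Matrix.toEuclideanLin S⁻¹ := rfl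
      rw [this, Matrix.toEuclideanLin, Matrix.toLpLin_eq_toLin, LinearMap.det_toLin]
    rw [h1, ← hS2, Matrix.det_mul, Matrix.det_nonsing_inv, Real.sqrt_mul_self_eq_abs, ← abs_mul,
      Ring.mul_inverse_cancel _ hS3]
    simp


end Matrices

section Riem

variable {n : ℕ} {M : Type} [MetricSpace M] [ChartedSpace (EuclideanSpace ℝ (Fin n)) M]
  [RiemannianBundle (fun (x : M) => TangentSpace (𝓡 n) x)]

theorem mfderiv_symm_eq (z : M) {y : EuclideanSpace ℝ (Fin n)} :
    mfderiv 𝓘(ℝ, EuclideanSpace ℝ (Fin n)) (𝓡 n) (extChartAt (𝓡 n) z).symm y =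
    mfderivWithin 𝓘(ℝ, EuclideanSpace ℝ (Fin n)) (𝓡 n) (extChartAt (𝓡 n) z).symm (range (𝓡 n)) y := by
  rw [ModelWithCorners.range_eq_univ, mfderivWithin_univ]

variable  [IsManifold (𝓡 n) ∞ M]
  [IsContMDiffRiemannianBundle (𝓡 n) ∞ (EuclideanSpace ℝ (Fin n))
        (fun (x : M) => TangentSpace (𝓡 n) x)]

theorem contBundle : IsContinuousRiemannianBundle (EuclideanSpace ℝ (Fin n))
    (fun (x : M) => TangentSpace (𝓡 n) x) := by
  obtain ⟨g, hg, h⟩ := IsContMDiffRiemannianBundle.exists_contMDiff (IB := 𝓡 n) (n := ∞)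
    (F := EuclideanSpace ℝ (Fin n)) (E := fun x : M => TangentSpace (𝓡 n) x)
  exact ⟨⟨g, hg.continuous, h⟩⟩

theorem continuousOn_push (z : M) (w : EuclideanSpace ℝ (Fin n)) :
    ContinuousOn (fun y : EuclideanSpace ℝ (Fin n) =>
      (⟨(extChartAt (𝓡 n) z).symm y, mfderiv 𝓘(ℝ, EuclideanSpace ℝ (Fin n)) (𝓡 n) (extChartAt (𝓡 n) z).symm y w⟩ :
        TotalSpace (EuclideanSpace ℝ (Fin n)) (fun (x : M) => TangentSpace (𝓡 n) x)))
      (extChartAt (𝓡 n) z).target := by
  have h := (contMDiffOn_extChartAt_symm (I := 𝓡 n) (n := ∞) z).continuousOn_tangentMapWithin (by simp)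
    ((isOpen_extChartAt_target z).uniqueMDiffOn)
  have h2 : ContinuousOn (fun y : EuclideanSpace ℝ (Fin n) => (⟨y, w⟩ : TangentBundle 𝓘(ℝ, EuclideanSpace ℝ (Fin n)) (EuclideanSpace ℝ (Fin n))))
    (extChartAt (𝓡 n) z).target := by
    have := (tangentBundleModelSpaceHomeomorph 𝓘(ℝ, EuclideanSpace ℝ (Fin n))).symm.continuous
    have h5 : Continuous (fun y : EuclideanSpace ℝ (Fin n) => ((y, w) : EuclideanSpace ℝ (Fin n) × EuclideanSpace ℝ (Fin n))) := by fun_prop
    exact (this.comp h5).continuousOn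
  have h3 := h.comp h2 (fun y hy => hy)
  refine h3.congr fun y hy => ?_
  simp only [Function.comp, tangentMapWithin]
  rw [mfderivWithin_of_isOpen (isOpen_extChartAt_target z) hy]

theorem continuousOn_gram (z : M) : ContinuousOn (gram (n := n) z) (extChartAt (𝓡 n) z).target := by
  have := contBundle (n := n) (M := M)
  have key : ∀ i j, ContinuousOn (fun y => gram (n := n) z y i j) (extChartAt (𝓡 n) z).target := by
    intro i j
    exact ContinuousOn.inner_bundle (continuousOn_push z _) (continuousOn_push z _)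
  exact continuousOn_pi.2 fun i => continuousOn_pi.2 fun j => key i j


set_option backward.isDefEq.respectTransparency false in
theorem inner_push (z : M) (y u w : EuclideanSpace ℝ (Fin n)) :
    inner ℝ
    (mfderiv 𝓘(ℝ, EuclideanSpace ℝ (Fin n)) (𝓡 n) (extChartAt (𝓡 n) z).symm y u : TangentSpace (𝓡 n) ((extChartAt (𝓡 n) z).symm y))
    (mfderiv 𝓘(ℝ, EuclideanSpace ℝ (Fin n)) (𝓡 n) (extChartAt (𝓡 n) z).symm y w) =
     ∑ i, ∑ j, u i * w j * gram z y i j := by
  have hexp : ∀ u : EuclideanSpace ℝ (Fin n),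
    (mfderiv 𝓘(ℝ, EuclideanSpace ℝ (Fin n)) (𝓡 n) (extChartAt (𝓡 n) z).symm y u : TangentSpace (𝓡 n) ((extChartAt (𝓡 n) z).symm y))
     = ∑ i, u i • (mfderiv 𝓘(ℝ, EuclideanSpace ℝ (Fin n)) (𝓡 n) (extChartAt (𝓡 n) z).symm y (EuclideanSpace.single i (1 : ℝ))
      : TangentSpace (𝓡 n) ((extChartAt (𝓡 n) z).symm y)) := by
    intro u
    have h1 : u = ∑ i, u i • EuclideanSpace.single i (1 : ℝ) := by
      ext i
      simp [Finset.sum_apply, Pi.single_apply]
    conv_lhs => rw [h1]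
    erw [map_sum]
    refine Finset.sum_congr rfl fun i _ => ?_
    erw [map_smul]
  rw [hexp u, hexp w]
  rw [sum_inner]
  refine Finset.sum_congr rfl fun i _ => ?_
  rw [inner_sum]
  refine Finset.sum_congr rfl fun j _ => ?_
  rw [real_inner_smul_left, real_inner_smul_right]
  unfold gram
  simp only [Matrix.of_apply]
  ring


set_option backward.isDefEq.respectTransparency false in
theorem norm_push_sq (z : M) (y u : EuclideanSpace ℝ (Fin n)) :
    ‖(mfderiv 𝓘(ℝ, EuclideanSpace ℝ (Fin n)) (𝓡 n) (extChartAt (𝓡 n) z).symm y u :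
      TangentSpace (𝓡 n) ((extChartAt (𝓡 n) z).symm y))‖ ^ 2 = qf (gram z y) u := by
  rw [← real_inner_self_eq_norm_sq]
  exact inner_push z y u u

theorem gram_posDef (z : M) {y : EuclideanSpace ℝ (Fin n)} (hy : y ∈ (extChartAt (𝓡 n) z).target) :
    (gram (n := n) z y).PosDef := by
  refine Matrix.PosDef.of_dotProduct_mulVec_pos ?_ ?_
  · ext i j
    rw [Matrix.conjTranspose_apply]
    simp only [star_trivial, gram, Matrix.of_apply]
    exact real_inner_comm _ _
  · intro x hx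
    have h1 : star x ⬝ᵥ (gram (n := n) z y).mulVec x = qf (gram (n := n) z y) (WithLp.toLp 2 x) := by
      rw [qf_eq]
      simp
    rw [h1, ← norm_push_sq]
    have h2 : (mfderiv 𝓘(ℝ, EuclideanSpace ℝ (Fin n)) (𝓡 n) (extChartAt (𝓡 n) z).symm y
        (WithLp.toLp 2 x : EuclideanSpace ℝ (Fin n)) :
        TangentSpace (𝓡 n) ((extChartAt (𝓡 n) z).symm y)) ≠ 0 := by
      intro h0
      have h3 := mfderiv_extChartAt_comp_mfderivWithin_extChartAt_symm (I := 𝓡 n) hy
      rw [← mfderiv_symm_eq] at h3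
      have h4 := DFunLike.congr_fun h3 (WithLp.toLp 2 x : EuclideanSpace ℝ (Fin n))
      have h5 : (WithLp.toLp 2 x : EuclideanSpace ℝ (Fin n)) = 0 := by
        refine Eq.trans h4.symm ?_
        refine Eq.trans (congrArg (mfderiv (𝓡 n) 𝓘(ℝ, EuclideanSpace ℝ (Fin n)) (extChartAt (𝓡 n) z)
          ((extChartAt (𝓡 n) z).symm y)) h0) ?_
        exact map_zero _
      exact hx ((WithLp.toLp_eq_zero 2).1 h5)
    have h6 := norm_pos_iff.2 h2
    positivity

theorem continuousAt_qf (z : M) {y₀ : EuclideanSpace ℝ (Fin n)}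
    (hy : y₀ ∈ (extChartAt (𝓡 n) z).target)
    (T : EuclideanSpace ℝ (Fin n) ≃L[ℝ] EuclideanSpace ℝ (Fin n)) (u : EuclideanSpace ℝ (Fin n)) :
    ContinuousAt (fun p : EuclideanSpace ℝ (Fin n) × EuclideanSpace ℝ (Fin n) =>
      qf (gram (n := n) z p.1) (T p.2)) (y₀, u) := by
  have h1 : ContinuousAt (gram (n := n) z) y₀ :=
    (continuousOn_gram z).continuousAt ((isOpen_extChartAt_target z).mem_nhds hy)
  unfold qf
  refine tendsto_finsetSum _ fun i _ => tendsto_finsetSum _ fun j _ => ?_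
  have h2 : ContinuousAt (fun p : EuclideanSpace ℝ (Fin n) × EuclideanSpace ℝ (Fin n) =>
    gram (n := n) z p.1 i j) (y₀, u) := by
    have h3 : ContinuousAt (fun y => gram (n := n) z y i j) y₀ :=
      (continuousAt_pi.1 (continuousAt_pi.1 h1 i) j)
    exact ContinuousAt.comp (x := (y₀, u)) (g := fun y => gram (n := n) z y i j) h3 continuousAt_fst
  have h4 : ∀ i, ContinuousAt (fun p : EuclideanSpace ℝ (Fin n) × EuclideanSpace ℝ (Fin n) =>
    (T p.2) i) (y₀, u) := by
    intro i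
    exact Continuous.continuousAt (by fun_prop)
  exact ((h4 i).mul (h4 j)).mul h2

theorem eventually_qf_le (z : M) {y₀ : EuclideanSpace ℝ (Fin n)}
    (hy : y₀ ∈ (extChartAt (𝓡 n) z).target)
    (T : EuclideanSpace ℝ (Fin n) ≃L[ℝ] EuclideanSpace ℝ (Fin n))
    (hT : ∀ u, qf (gram (n := n) z y₀) (T u) = ‖u‖ ^ 2) {δ : ℝ} (hδ : 0 < δ) :
    ∀ᶠ y in 𝓝 y₀, ∀ u : EuclideanSpace ℝ (Fin n), qf (gram (n := n) z y) (T u) ≤ (1 + δ) ^ 2 * ‖u‖ ^ 2 := by
  have h1 : ∀ᶠ y in 𝓝 y₀, ∀ u ∈ Metric.sphere (0 : EuclideanSpace ℝ (Fin n)) 1,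
      qf (gram (n := n) z y) (T u) < (1 + δ) ^ 2 := by
    refine (isCompact_sphere _ _).eventually_forall_of_forall_eventually fun u hu => ?_
    refine (continuousAt_qf z hy T u).eventually_lt continuousAt_const ?_
    simp only [hT]
    rw [mem_sphere_zero_iff_norm.1 hu]
    nlinarith
  filter_upwards [h1] with y h2 u
  rcases eq_or_ne u 0 with rfl | hu
  · simp [qf]
  · have h3 := h2 (‖u‖⁻¹ • u) (by
      rw [mem_sphere_zero_iff_norm, norm_smul, norm_inv, norm_norm, inv_mul_cancel₀ (norm_ne_zero_iff.2 hu)])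
    rw [map_smul, qf_smul] at h3
    have h4 : 0 < ‖u‖ ^ 2 := by positivity
    have h5 := (mul_lt_mul_iff_of_pos_right h4).2 h3
    refine le_trans (le_of_eq ?_) h5.le
    field_simp

set_option backward.isDefEq.respectTransparency false in
theorem edist_le [IsRiemannianManifold (𝓡 n) M] (z : M) (y₀ : EuclideanSpace ℝ (Fin n))
    (T : EuclideanSpace ℝ (Fin n) ≃L[ℝ] EuclideanSpace ℝ (Fin n)) {U : Set (EuclideanSpace ℝ (Fin n))}
    (hU : Convex ℝ U) (ht : ∀ u ∈ U, y₀ + T u ∈ (extChartAt (𝓡 n) z).target) (c : ℝ≥0)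
    (hc : ∀ u ∈ U, ∀ w : EuclideanSpace ℝ (Fin n),
      ‖(mfderiv 𝓘(ℝ, EuclideanSpace ℝ (Fin n)) (𝓡 n) (extChartAt (𝓡 n) z).symm (y₀ + T u) (T w) :
      TangentSpace (𝓡 n) ((extChartAt (𝓡 n) z).symm (y₀ + T u)))‖ₑ ≤ c * ‖w‖ₑ)
    {u u' : EuclideanSpace ℝ (Fin n)} (hu : u ∈ U) (hu' : u' ∈ U) :
    edist ((extChartAt (𝓡 n) z).symm (y₀ + T u)) ((extChartAt (𝓡 n) z).symm (y₀ + T u')) ≤
      c * edist u u' := by
  have := contBundle (n := n) (M := M)
  rw [IsRiemannianManifold.out (I := 𝓡 n)]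
  let η := ContinuousAffineMap.lineMap (R := ℝ) (y₀ + T u) (y₀ + T u')
  set γ := (extChartAt (𝓡 n) z).symm ∘ η
  have hη0 : ∀ t, η t = y₀ + T (AffineMap.lineMap u u' t) := by
    intro t
    simp only [η, ContinuousAffineMap.coe_lineMap_eq, AffineMap.lineMap_apply_module, map_add, map_smul]
    module
  have hη : ∀ t ∈ Icc (0 : ℝ) 1, (AffineMap.lineMap u u' t : EuclideanSpace ℝ (Fin n)) ∈ U := by
    intro t ht
    exact hU.lineMap_mem hu hu' ht
  have hη1 : Icc (0 : ℝ) 1 ⊆ ⇑η ⁻¹' (extChartAt (𝓡 n) z).target := by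
    intro t h
    rw [mem_preimage, hη0]
    exact ht _ (hη t h)
  have η_smooth : ContMDiffOn 𝓘(ℝ, ℝ) 𝓘(ℝ, EuclideanSpace ℝ (Fin n)) 1 η (Icc 0 1) := by
    apply ContMDiff.contMDiffOn
    rw [contMDiff_iff_contDiff]
    exact ContinuousAffineMap.contDiff _
  have h1 : riemannianEDist (𝓡 n) ((extChartAt (𝓡 n) z).symm (y₀ + T u))
      ((extChartAt (𝓡 n) z).symm (y₀ + T u')) ≤ pathELength (𝓡 n) γ 0 1 := by
    apply riemannianEDist_le_pathELength _ _ _ zero_le_one
    · exact (contMDiffOn_extChartAt_symm z).comp η_smooth hη1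
    · simp [γ, η, ContinuousAffineMap.coe_lineMap_eq]
    · simp [γ, η, ContinuousAffineMap.coe_lineMap_eq]
  apply h1.trans
  rw [pathELength_eq_lintegral_mfderivWithin_Icc]
  have h2 : (∫⁻ t in Icc (0 : ℝ) 1, (c : ℝ≥0∞) * edist u u') = c * edist u u' := by
    rw [setLIntegral_const, Real.volume_Icc]
    simp
  rw [← h2]
  apply setLIntegral_mono' measurableSet_Icc (fun t ht' ↦ ?_)
  have h3 : mfderivWithin 𝓘(ℝ, ℝ) (𝓡 n) γ (Icc 0 1) t =
      (mfderivWithin 𝓘(ℝ, EuclideanSpace ℝ (Fin n)) (𝓡 n) (extChartAt (𝓡 n) z).symm (range (𝓡 n)) (η t)) ∘L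
        (mfderivWithin 𝓘(ℝ, ℝ) 𝓘(ℝ, EuclideanSpace ℝ (Fin n)) η (Icc 0 1) t) := by
    apply mfderivWithin_comp
    · exact mdifferentiableWithinAt_extChartAt_symm (hη1 ht')
    · exact η_smooth.mdifferentiableOn one_ne_zero t ht'
    · exact hη1.trans (preimage_mono (extChartAt_target_subset_range z))
    · rw [uniqueMDiffWithinAt_iff_uniqueDiffWithinAt]
      exact uniqueDiffOn_Icc zero_lt_one t ht'
  have h4 : mfderivWithin 𝓘(ℝ, ℝ) (𝓡 n) γ (Icc 0 1) t 1 =
      (mfderivWithin 𝓘(ℝ, EuclideanSpace ℝ (Fin n)) (𝓡 n) (extChartAt (𝓡 n) z).symm (range (𝓡 n)) (η t))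
        (mfderivWithin 𝓘(ℝ, ℝ) 𝓘(ℝ, EuclideanSpace ℝ (Fin n)) η (Icc 0 1) t 1) := congr($h3 1)
  have h5 : (mfderivWithin 𝓘(ℝ, ℝ) 𝓘(ℝ, EuclideanSpace ℝ (Fin n)) η (Icc 0 1) t 1) = T (u' - u) := by
    rw [mfderivWithin_eq_fderivWithin, ContinuousAffineMap.fderivWithin]
    · have h6 : (AffineMap.lineMap (k := ℝ) (y₀ + T u) (y₀ + T u')).linear 1 = T (u' - u) := by
        rw [AffineMap.lineMap_linear]
        simp
      exact h6
    · exact uniqueDiffOn_Icc zero_lt_one t ht'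
  have h6 := hc _ (hη t ht') (u' - u)
  rw [← hη0] at h6
  rw [h4, h5, ← mfderiv_symm_eq, edist_comm, edist_eq_enorm_sub]
  exact h6

omit [RiemannianBundle (fun (x : M) => TangentSpace (𝓡 n) x)] [IsManifold (𝓡 n) ∞ M]
  [IsContMDiffRiemannianBundle (𝓡 n) ∞ (EuclideanSpace ℝ (Fin n))
        (fun (x : M) => TangentSpace (𝓡 n) x)] in
theorem symm_image_eq (z : M) {S : Set (EuclideanSpace ℝ (Fin n))}
    (hS : S ⊆ (extChartAt (𝓡 n) z).target) :
    (extChartAt (𝓡 n) z).symm '' S = (extChartAt (𝓡 n) z).source ∩ (extChartAt (𝓡 n) z) ⁻¹' S :=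
  (extChartAt (𝓡 n) z).symm_image_eq_source_inter_preimage hS

omit [RiemannianBundle (fun (x : M) => TangentSpace (𝓡 n) x)] [IsManifold (𝓡 n) ∞ M]
  [IsContMDiffRiemannianBundle (𝓡 n) ∞ (EuclideanSpace ℝ (Fin n))
        (fun (x : M) => TangentSpace (𝓡 n) x)] in
theorem measurableSet_symm_image [MeasurableSpace M] [BorelSpace M] (z : M)
    {S : Set (EuclideanSpace ℝ (Fin n))} (hS : S ⊆ (extChartAt (𝓡 n) z).target)
    (hm : MeasurableSet S) : MeasurableSet ((extChartAt (𝓡 n) z).symm '' S) := by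
  rw [symm_image_eq z hS]
  have h1 : Measurable ((extChartAt (𝓡 n) z).source.domRestrict (extChartAt (𝓡 n) z)) :=
    (continuousOn_iff_continuous_domRestrict.1 (continuousOn_extChartAt z)).measurable
  have h2 : (extChartAt (𝓡 n) z).source ∩ (extChartAt (𝓡 n) z) ⁻¹' S =
      Subtype.val '' (((extChartAt (𝓡 n) z).source.domRestrict (extChartAt (𝓡 n) z)) ⁻¹' S) := by
    ext x
    constructor
    · rintro ⟨h, h'⟩
      exact ⟨⟨x, h⟩, h', rfl⟩
    · rintro ⟨⟨x, h⟩, h', rfl⟩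
      exact ⟨h, h'⟩
  rw [h2]
  exact (isOpen_extChartAt_source z).measurableSet.subtype_image (h1 hm)

omit [IsManifold (𝓡 n) ∞ M]
  [IsContMDiffRiemannianBundle (𝓡 n) ∞ (EuclideanSpace ℝ (Fin n))
        (fun (x : M) => TangentSpace (𝓡 n) x)] in
theorem vol_symm_image [MeasurableSpace M] [BorelSpace M] {vol : Measure M}
    (hvol : IsRiemannianVolume (n := n) vol) (z : M) {S : Set (EuclideanSpace ℝ (Fin n))}
    (hS : S ⊆ (extChartAt (𝓡 n) z).target) (hm : MeasurableSet S) :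
    vol ((extChartAt (𝓡 n) z).symm '' S) = ∫⁻ y in S, ENNReal.ofReal (√((gram (n := n) z y).det)) := by
  have h1 : (extChartAt (𝓡 n) z) '' ((extChartAt (𝓡 n) z).symm '' S) = S :=
    (extChartAt (𝓡 n) z).image_symm_image_of_subset_target hS
  have h2 : (extChartAt (𝓡 n) z).symm '' S ⊆ (chartAt (EuclideanSpace ℝ (Fin n)) z).source := by
    rw [symm_image_eq z hS, extChartAt_source]
    exact inter_subset_left
  rw [hvol z _ (measurableSet_symm_image z hS hm) h2, h1]

theorem continuousAt_sqrt_det (z : M) {y₀ : EuclideanSpace ℝ (Fin n)}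
    (hy : y₀ ∈ (extChartAt (𝓡 n) z).target) :
    ContinuousAt (fun y => √((gram (n := n) z y).det)) y₀ := by
  have h1 : ContinuousAt (gram (n := n) z) y₀ :=
    (continuousOn_gram z).continuousAt ((isOpen_extChartAt_target z).mem_nhds hy)
  have h2 : Continuous (fun A : Matrix (Fin n) (Fin n) ℝ => √(A.det)) :=
    Real.continuous_sqrt.comp (Continuous.matrix_det continuous_id)
  exact h2.continuousAt.comp h1

theorem isFinite [CompactSpace M] [MeasurableSpace M] [BorelSpace M] {vol : Measure M}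
    (hvol : IsRiemannianVolume (n := n) vol) : IsFiniteMeasure vol := by
  have : IsLocallyFiniteMeasure vol := by
    refine ⟨fun z => ?_⟩
    set e := extChartAt (𝓡 n) z with he
    have hz : e z ∈ e.target := mem_extChartAt_target z
    have h1 : ∀ᶠ y in 𝓝 (e z), √((gram (n := n) z y).det) < √((gram (n := n) z (e z)).det) + 1 :=
      (continuousAt_sqrt_det z hz).eventually_lt continuousAt_const (by linarith)
    have h2 : ∀ᶠ y in 𝓝 (e z), y ∈ e.target := (isOpen_extChartAt_target z).mem_nhds hz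
    obtain ⟨r, hr, h3⟩ := Metric.eventually_nhds_iff_ball.1 (h1.and h2)
    have hS : Metric.ball (e z) r ⊆ e.target := fun y hy => (h3 y hy).2
    refine ⟨e.symm '' Metric.ball (e z) r, ?_, ?_⟩
    · rw [symm_image_eq z hS]
      refine IsOpen.mem_nhds ((continuousOn_extChartAt z).isOpen_inter_preimage
        (isOpen_extChartAt_source z) Metric.isOpen_ball) ⟨mem_extChartAt_source z, ?_⟩
      exact Metric.mem_ball_self hr
    · rw [vol_symm_image hvol z hS measurableSet_ball]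
      calc ∫⁻ y in Metric.ball (e z) r, ENNReal.ofReal (√((gram (n := n) z y).det))
          ≤ ∫⁻ y in Metric.ball (e z) r, ENNReal.ofReal (√((gram (n := n) z (e z)).det) + 1) :=
            setLIntegral_mono' measurableSet_ball fun y hy =>
              ENNReal.ofReal_le_ofReal (h3 y hy).1.le
        _ = ENNReal.ofReal (√((gram (n := n) z (e z)).det) + 1) * volume (Metric.ball (e z) r) :=
            setLIntegral_const _ _
        _ < ⊤ := ENNReal.mul_lt_top ENNReal.ofReal_lt_top measure_ball_lt_top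
  infer_instance

theorem nearIso [IsRiemannianManifold (𝓡 n) M] [MeasurableSpace M] [BorelSpace M] {vol : Measure M}
    (hvol : IsRiemannianVolume (n := n) vol) (z : M) (v : EuclideanSpace ℝ (Fin n))
    (hv : v + extChartAt (𝓡 n) z z ∈ (extChartAt (𝓡 n) z).target) :
    ∃ T : EuclideanSpace ℝ (Fin n) ≃L[ℝ] EuclideanSpace ℝ (Fin n),
      NearIso vol (fun u => (extChartAt (𝓡 n) z).symm (u + extChartAt (𝓡 n) z z))
        {u | u + extChartAt (𝓡 n) z z ∈ (extChartAt (𝓡 n) z).target} v T := by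
  set e := extChartAt (𝓡 n) z with he
  set y₀ := v + e z with hy₀
  obtain ⟨T, hT, hdet⟩ := exists_T (gram_posDef z hv)
  refine ⟨T, fun δ hδ => ?_⟩
  have hpos : 0 < √((gram (n := n) z y₀).det) := Real.sqrt_pos.2 (gram_posDef z hv).det_pos
  have h1 : ∀ᶠ y in 𝓝 y₀, (1 - δ) * √((gram (n := n) z y₀).det) < √((gram (n := n) z y).det) :=
    ContinuousAt.eventually_lt continuousAt_const (continuousAt_sqrt_det z hv) (by nlinarith)
  have h2 : ∀ᶠ y in 𝓝 y₀, y ∈ e.target := (isOpen_extChartAt_target z).mem_nhds hv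
  have h3 := eventually_qf_le z hv T hT hδ
  have h4 : Tendsto (fun u => y₀ + T u) (𝓝 0) (𝓝 y₀) := by
    have : Continuous (fun u => y₀ + T u) := by fun_prop
    have h5 := this.tendsto 0
    simpa using h5
  obtain ⟨ρ, hρ, h5⟩ := Metric.eventually_nhds_iff_ball.1 (h4.eventually ((h1.and h2).and h3))
  have hcomm : ∀ u, v + T u + e z = y₀ + T u := fun u => by rw [hy₀]; abel
  refine ⟨ρ, hρ, fun u hu => ?_, fun u hu u' hu' => ?_, fun B hB hBm => ?_⟩
  · change v + T u + e z ∈ e.target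
    rw [hcomm]
    exact (h5 u hu).1.2
  · change dist (e.symm (v + T u + e z)) (e.symm (v + T u' + e z)) ≤ _
    rw [hcomm, hcomm]
    have h6 := edist_le z y₀ T (convex_ball 0 ρ) (fun u hu => (h5 u hu).1.2) (Real.toNNReal (1 + δ))
      (fun u hu w => by
        have h7 := (h5 u hu).2 w
        rw [← norm_push_sq, ← mul_pow] at h7
        have h8 := abs_le_of_sq_le_sq h7 (by positivity)
        rw [abs_of_nonneg (norm_nonneg _)] at h8
        rw [← ofReal_norm, ← ofReal_norm]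
        refine (ENNReal.ofReal_le_ofReal h8).trans ?_
        rw [ENNReal.ofReal_mul (by positivity)]
        rfl) hu hu'
    rw [edist_dist, edist_dist] at h6
    have h7 : ((Real.toNNReal (1 + δ) : ℝ≥0) : ℝ≥0∞) = ENNReal.ofReal (1 + δ) := rfl
    rw [h7, ← ENNReal.ofReal_mul (by positivity)] at h6
    exact (ENNReal.ofReal_le_ofReal_iff (by positivity)).1 h6
  · have hST : (fun u => y₀ + T u) '' B ⊆ e.target := by
      rintro _ ⟨u, hu, rfl⟩
      exact (h5 u (hB hu)).1.2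
    have hSm : MeasurableSet ((fun u => y₀ + T u) '' B) := by
      have h6 : (fun u => y₀ + T u) '' B = (fun y => T.symm (y - y₀)) ⁻¹' B := by
        ext y
        constructor
        · rintro ⟨u, hu, rfl⟩
          simpa using hu
        · intro h
          exact ⟨_, h, by simp⟩
      rw [h6]
      exact (Continuous.measurable (by fun_prop)) hBm
    have himg : (fun u => e.symm (v + T u + e z)) '' B = e.symm '' ((fun u => y₀ + T u) '' B) := by
      rw [image_image]
      refine image_congr fun u _ => ?_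
      rw [hcomm]
    change _ ≤ vol ((fun u => e.symm (v + T u + e z)) '' B)
    rw [himg, vol_symm_image hvol z hST hSm]
    have hvolS : volume ((fun u => y₀ + T u) '' B) =
        ENNReal.ofReal |LinearMap.det (T : EuclideanSpace ℝ (Fin n) →ₗ[ℝ] EuclideanSpace ℝ (Fin n))| *
          volume B := by
      have h6 : (fun u => y₀ + T u) '' B = (fun x => y₀ + x) '' (T '' B) := by
        rw [image_image]
      rw [h6, Set.image_add_left, measure_preimage_add]
      exact Measure.addHaar_image_continuousLinearEquiv _ T B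
    calc ENNReal.ofReal (1 - δ) * volume B
        = ENNReal.ofReal ((1 - δ) * √((gram (n := n) z y₀).det)) *
            volume ((fun u => y₀ + T u) '' B) := by
          rw [hvolS, ENNReal.ofReal_mul' (Real.sqrt_nonneg _), ← mul_assoc,
            mul_assoc (ENNReal.ofReal (1 - δ)), ← ENNReal.ofReal_mul (Real.sqrt_nonneg _), hdet]
          simp
      _ = ∫⁻ y in (fun u => y₀ + T u) '' B, ENNReal.ofReal ((1 - δ) * √((gram (n := n) z y₀).det)) :=
          (setLIntegral_const _ _).symm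
      _ ≤ ∫⁻ y in (fun u => y₀ + T u) '' B, ENNReal.ofReal (√((gram (n := n) z y).det)) := by
          refine setLIntegral_mono' hSm ?_
          rintro _ ⟨u, hu, rfl⟩
          exact ENNReal.ofReal_le_ofReal (h5 u (hB hu)).1.1.le

omit [RiemannianBundle (fun (x : M) => TangentSpace (𝓡 n) x)] [IsManifold (𝓡 n) ∞ M]
  [IsContMDiffRiemannianBundle (𝓡 n) ∞ (EuclideanSpace ℝ (Fin n))
        (fun (x : M) => TangentSpace (𝓡 n) x)] in
theorem isParam (z : M) :
    IsParam (fun u => (extChartAt (𝓡 n) z).symm (u + extChartAt (𝓡 n) z z))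
        {u | u + extChartAt (𝓡 n) z z ∈ (extChartAt (𝓡 n) z).target} := by
  set e := extChartAt (𝓡 n) z with he
  have hc : Continuous (fun u => u + e z) := by fun_prop
  refine ⟨(isOpen_extChartAt_target z).preimage hc, ?_, ?_, ?_, ?_⟩
  · change 0 + e z ∈ e.target
    rw [zero_add]
    exact mem_extChartAt_target z
  · intro u hu u' hu' h
    have := e.symm.injOn hu hu' h
    exact add_right_cancel this
  · exact (continuousOn_extChartAt_symm z).comp hc.continuousOn fun u hu => hu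
  · intro V hV hVo
    have h1 : (fun u => e.symm (u + e z)) '' V = e.symm '' ((fun u => u + e z) '' V) := by
      rw [image_image]
    rw [h1, symm_image_eq z (by rintro _ ⟨u, hu, rfl⟩; exact hV hu)]
    refine (continuousOn_extChartAt z).isOpen_inter_preimage (isOpen_extChartAt_source z) ?_
    exact (Homeomorph.addRight (e z)).isOpenMap V hVo

end Riem

/-- [RVOL] -/
theorem rvol : RVolStatement := by
  intro n M _ _ _ _ _ _ _ _ _ _ vol hvol
  refine ⟨isFinite hvol, fun z => ⟨_, _, isParam z, ?_, fun v hv => nearIso hvol z v hv⟩⟩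
  change (extChartAt (𝓡 n) z).symm (0 + extChartAt (𝓡 n) z z) = z
  rw [zero_add, extChartAt_to_inv]

end

end Pool.Agent.Lib.MP_72b724_gt.H74
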